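import Pool.Agent.W92.ET.Base

/-!
# Project ET, part PSD: positivity against the comparison measure
-/

namespace Pool.Agent.W701.ET

open MeasureTheory Set Pool.Agent.W92.ET

/-- Lebesgue measure on the half line -/
noncomputable abbrev mu : Measure ℝ := volume.restrict (Ioi (0 : ℝ))

theorem ae_pos : ∀ᵐ u ∂mu, 0 < u := ae_restrict_mem measurableSet_Ioi

theorem ae_pos2 : ∀ᵐ z ∂(mu.prod mu), 0 < z.1 ∧ 0 < z.2 := by
  unfold mu
  rw [Measure.prod_restrict]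
  exact ae_restrict_mem (measurableSet_Ioi.prod measurableSet_Ioi)

section lem

variable (g h : ℝ → ℝ) (F₁ F₂ : ℝ → ℝ → ℝ) (C : ℝ)

theorem int_sec (g h : ℝ → ℝ) (F : ℝ → ℝ → ℝ) (C : ℝ) (hh : Integrable h mu)
    (hF : Continuous (Function.uncurry F))
    (hb : ∀ u τ, 0 < u → 0 < τ → |F u τ| ≤ C * g u * h τ) (u : ℝ) (hu : 0 < u) :
    Integrable (fun τ => F u τ) mu := by
  refine Integrable.mono' (hh.const_mul (C * g u)) ?_ ?_
  · have : Continuous (fun τ => F u τ) := hF.comp (Continuous.prodMk_right u)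
    exact this.aestronglyMeasurable
  · filter_upwards [ae_pos] with τ hτ
    rw [Real.norm_eq_abs]
    exact hb u τ hu hτ

theorem int_M_bd (g h : ℝ → ℝ) (F : ℝ → ℝ → ℝ) (C : ℝ) (hh : Integrable h mu)
    (hb : ∀ u τ, 0 < u → 0 < τ → |F u τ| ≤ C * g u * h τ) (u : ℝ) (hu : 0 < u) :
    |∫ τ, F u τ ∂mu| ≤ (C * ∫ τ, h τ ∂mu) * g u := by
  have h1 : ‖∫ τ, F u τ ∂mu‖ ≤ ∫ τ, C * g u * h τ ∂mu := by
    apply norm_integral_le_of_norm_le (hh.const_mul (C * g u))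
    filter_upwards [ae_pos] with τ hτ
    rw [Real.norm_eq_abs]
    exact hb u τ hu hτ
  rw [Real.norm_eq_abs, integral_const_mul] at h1
  linarith [h1]

theorem int_K (g h : ℝ → ℝ) (F : ℝ → ℝ → ℝ) (C D : ℝ) (φ : ℝ → ℝ)
    (hg0 : ∀ u, 0 < u → 0 ≤ g u) (hD : 0 ≤ D)
    (hg : Integrable (fun u => g u ^ 2) mu) (hh : Integrable h mu)
    (hF : Continuous (Function.uncurry F))
    (hb : ∀ u τ, 0 < u → 0 < τ → |F u τ| ≤ C * g u * h τ)
    (hφ : AEStronglyMeasurable φ mu) (hφb : ∀ u, 0 < u → |φ u| ≤ D * g u) :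
    Integrable (fun z : ℝ × ℝ => φ z.1 * F z.1 z.2) (mu.prod mu) := by
  have h1 : Integrable (fun z : ℝ × ℝ => (g z.1 ^ 2) * (D * C * h z.2)) (mu.prod mu) :=
    hg.mul_prod (hh.const_mul (D * C))
  refine Integrable.mono' h1 ?_ ?_
  · exact (hφ.comp_fst).mul hF.aestronglyMeasurable
  · filter_upwards [ae_pos2] with z hz
    rw [Real.norm_eq_abs, abs_mul]
    calc |φ z.1| * |F z.1 z.2| ≤ (D * g z.1) * (C * g z.1 * h z.2) := by
          apply mul_le_mul (hφb _ hz.1) (hb _ _ hz.1 hz.2) (abs_nonneg _)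
          exact mul_nonneg hD (hg0 _ hz.1)
      _ = g z.1 ^ 2 * (D * C * h z.2) := by ring

theorem lem (g h : ℝ → ℝ) (F₁ F₂ : ℝ → ℝ → ℝ) (C D : ℝ) (φ₁ φ₂ : ℝ → ℝ)
    (hg0 : ∀ u, 0 < u → 0 ≤ g u) (hD : 0 ≤ D)
    (hg : Integrable (fun u => g u ^ 2) mu) (hh : Integrable h mu)
    (hF₁ : Continuous (Function.uncurry F₁)) (hF₂ : Continuous (Function.uncurry F₂))
    (hb₁ : ∀ u τ, 0 < u → 0 < τ → |F₁ u τ| ≤ C * g u * h τ)
    (hb₂ : ∀ u τ, 0 < u → 0 < τ → |F₂ u τ| ≤ C * g u * h τ)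
    (hφ₁ : AEStronglyMeasurable φ₁ mu) (hφb₁ : ∀ u, 0 < u → |φ₁ u| ≤ D * g u)
    (hφ₂ : AEStronglyMeasurable φ₂ mu) (hφb₂ : ∀ u, 0 < u → |φ₂ u| ≤ D * g u) :
    Integrable (fun u => φ₁ u * (∫ τ, F₁ u τ ∂mu) + φ₂ u * (∫ τ, F₂ u τ ∂mu)) mu ∧
    ∫ u, (φ₁ u * (∫ τ, F₁ u τ ∂mu) + φ₂ u * (∫ τ, F₂ u τ ∂mu)) ∂mu =
      ∫ τ, (∫ u, (φ₁ u * F₁ u τ + φ₂ u * F₂ u τ) ∂mu) ∂mu := by
  have hK : Integrable (fun z : ℝ × ℝ => φ₁ z.1 * F₁ z.1 z.2 + φ₂ z.1 * F₂ z.1 z.2)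
      (mu.prod mu) :=
    (int_K g h F₁ C D φ₁ hg0 hD hg hh hF₁ hb₁ hφ₁ hφb₁).add
      (int_K g h F₂ C D φ₂ hg0 hD hg hh hF₂ hb₂ hφ₂ hφb₂)
  have hae : ∀ᵐ u ∂mu, (∫ τ, (φ₁ u * F₁ u τ + φ₂ u * F₂ u τ) ∂mu) =
      φ₁ u * (∫ τ, F₁ u τ ∂mu) + φ₂ u * (∫ τ, F₂ u τ ∂mu) := by
    filter_upwards [ae_pos] with u hu
    rw [integral_add, integral_const_mul, integral_const_mul]
    · exact (int_sec g h F₁ C hh hF₁ hb₁ u hu).const_mul _
    · exact (int_sec g h F₂ C hh hF₂ hb₂ u hu).const_mul _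
  constructor
  · exact (hK.integral_prod_left).congr hae
  · rw [← integral_congr_ae hae]
    exact integral_integral_swap hK

end lem

/-! ### the concrete functions -/

/-- first component -/
noncomputable def Pf (u y : ℝ) : ℝ := pp u (u * y) * Real.exp (-(u * y))

/-- second component -/
noncomputable def Qf (u y : ℝ) : ℝ := qq u (u * y) * Real.exp (-(u * y))

/-- weight in `u` -/
noncomputable def gw (u : ℝ) : ℝ := u ^ (-(1 / 4 : ℝ)) * Real.exp (-(u / 4))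

/-- weight in `τ` -/
noncomputable def hw (τ : ℝ) : ℝ := Real.exp (-(τ / 4))

theorem gw_nonneg (u : ℝ) (hu : 0 < u) : 0 ≤ gw u := by
  unfold gw
  positivity

theorem int_hw : Integrable hw mu := by
  have h1 := exp_neg_integrableOn_Ioi 0 (b := 1 / 4) (by norm_num)
  refine IntegrableOn.congr_fun h1 ?_ measurableSet_Ioi
  intro τ _
  simp only [hw]
  congr 1
  ring

theorem int_gw : Integrable (fun u => gw u ^ 2) mu := by
  have h1 := integrableOn_rpow_mul_exp_neg_mul_rpow (p := 1) (s := -(1 / 2)) (b := 1 / 2)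
    (by norm_num) (by norm_num) (by norm_num)
  refine IntegrableOn.congr_fun h1 ?_ measurableSet_Ioi
  intro u hu
  have hu0 : (0 : ℝ) < u := hu
  simp only [gw, Real.rpow_one]
  rw [mul_pow, ← Real.exp_nat_mul, ← Real.rpow_natCast (u ^ (-(1 / 4 : ℝ))) 2,
    ← Real.rpow_mul hu0.le]
  congr 2
  · norm_num
  · push_cast; ring

theorem cont_Pf : Continuous (fun z : ℝ × ℝ => Pf z.1 z.2) := by
  unfold Pf pp
  fun_prop

theorem cont_Qf : Continuous (fun z : ℝ × ℝ => Qf z.1 z.2) := by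
  unfold Qf qq
  fun_prop

theorem psd (h1 : S_lap) (h2 : S_bd) : S_psd := by
  intro s y β hy
  obtain ⟨C, hC, hbd⟩ := h2
  -- the functions of u and tau
  set F₁ : ℝ → ℝ → ℝ := fun u τ => Pf u (Real.cosh τ) with hF₁d
  set F₂ : ℝ → ℝ → ℝ := fun u τ => Qf u (Real.cosh τ) with hF₂d
  have hF₁ : Continuous (Function.uncurry F₁) := by
    have : Continuous (fun z : ℝ × ℝ => (z.1, Real.cosh z.2)) := by fun_prop
    exact cont_Pf.comp this
  have hF₂ : Continuous (Function.uncurry F₂) := by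
    have : Continuous (fun z : ℝ × ℝ => (z.1, Real.cosh z.2)) := by fun_prop
    exact cont_Qf.comp this
  have hb₁ : ∀ u τ, 0 < u → 0 < τ → |F₁ u τ| ≤ C * gw u * hw τ := by
    intro u τ hu hτ
    have h3 := (hbd u τ hu hτ.le).1
    simp only [hF₁d, Pf, gw, hw]
    rw [abs_mul, abs_of_pos (Real.exp_pos _)]
    exact h3
  have hb₂ : ∀ u τ, 0 < u → 0 < τ → |F₂ u τ| ≤ C * gw u * hw τ := by
    intro u τ hu hτ
    have h3 := (hbd u τ hu hτ.le).2
    simp only [hF₂d, Qf, gw, hw]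
    rw [abs_mul, abs_of_pos (Real.exp_pos _)]
    exact h3
  -- sections in y
  have hPm : ∀ y : ℝ, AEStronglyMeasurable (fun u => Pf u y) mu := by
    intro y
    have : Continuous (fun u => Pf u y) := cont_Pf.comp (Continuous.prodMk_left y)
    exact this.aestronglyMeasurable
  have hQm : ∀ y : ℝ, AEStronglyMeasurable (fun u => Qf u y) mu := by
    intro y
    have : Continuous (fun u => Qf u y) := cont_Qf.comp (Continuous.prodMk_left y)
    exact this.aestronglyMeasurable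
  have hPb : ∀ y : ℝ, 1 ≤ y → ∀ u, 0 < u → |Pf u y| ≤ C * gw u := by
    intro y hy u hu
    have h3 := (hbd u (Real.arcosh y) hu (Real.arcosh_nonneg hy)).1
    rw [Real.cosh_arcosh hy] at h3
    unfold Pf
    rw [abs_mul, abs_of_pos (Real.exp_pos _)]
    refine h3.trans ?_
    have h4 : Real.exp (-(Real.arcosh y / 4)) ≤ 1 := by
      rw [Real.exp_le_one_iff]
      have := Real.arcosh_nonneg hy
      linarith
    have h5 : 0 ≤ C * gw u := mul_nonneg hC.le (gw_nonneg u hu)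
    exact mul_le_of_le_one_right h5 h4
  have hQb : ∀ y : ℝ, 1 ≤ y → ∀ u, 0 < u → |Qf u y| ≤ C * gw u := by
    intro y hy u hu
    have h3 := (hbd u (Real.arcosh y) hu (Real.arcosh_nonneg hy)).2
    rw [Real.cosh_arcosh hy] at h3
    unfold Qf
    rw [abs_mul, abs_of_pos (Real.exp_pos _)]
    refine h3.trans ?_
    have h4 : Real.exp (-(Real.arcosh y / 4)) ≤ 1 := by
      rw [Real.exp_le_one_iff]
      have := Real.arcosh_nonneg hy
      linarith
    have h5 : 0 ≤ C * gw u := mul_nonneg hC.le (gw_nonneg u hu)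
    exact mul_le_of_le_one_right h5 h4
  -- the Laplace form
  have hlap : ∀ y y' : ℝ, 1 ≤ y → 1 ≤ y' →
      Integrable (fun u => Pf u y * Pf u y' + Qf u y * Qf u y') mu ∧
      ∫ u, (Pf u y * Pf u y' + Qf u y * Qf u y') ∂mu = kk y y' := by
    intro y y' hy hy'
    have h3 := h1 y y' (by linarith) (by linarith)
    have h4 : (fun u => Pf u y * Pf u y' + Qf u y * Qf u y') =
        (fun u : ℝ => (pp u (u * y) * pp u (u * y') + qq u (u * y) * qq u (u * y'))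
          * Real.exp (-(u * (y + y')))) := by
      funext u
      unfold Pf Qf
      have h5 : Real.exp (-(u * (y + y'))) = Real.exp (-(u * y)) * Real.exp (-(u * y')) := by
        rw [← Real.exp_add]
        congr 1
        ring
      rw [h5]
      ring
    rw [h4]
    exact h3
  -- M
  set M₁ : ℝ → ℝ := fun u => ∫ τ, F₁ u τ ∂mu with hM₁
  set M₂ : ℝ → ℝ := fun u => ∫ τ, F₂ u τ ∂mu with hM₂
  -- Claim A
  have hA : ∀ y : ℝ, 1 ≤ y → Integrable (fun u => Pf u y * M₁ u + Qf u y * M₂ u) mu ∧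
      ∫ u, (Pf u y * M₁ u + Qf u y * M₂ u) ∂mu = HH y := by
    intro y hy
    have h3 := lem gw hw F₁ F₂ C C (fun u => Pf u y) (fun u => Qf u y) gw_nonneg hC.le
      int_gw int_hw hF₁ hF₂ hb₁ hb₂ (hPm y) (hPb y hy) (hQm y) (hQb y hy)
    refine ⟨h3.1, ?_⟩
    rw [show (∫ u, (Pf u y * M₁ u + Qf u y * M₂ u) ∂mu) = _ from h3.2]
    unfold HH
    apply integral_congr_ae
    filter_upwards with τ
    exact (hlap y (Real.cosh τ) hy (Real.one_le_cosh τ)).2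
  -- Claim B
  have hHh : 0 ≤ ∫ τ, hw τ ∂mu := by
    apply integral_nonneg
    intro τ
    unfold hw
    positivity
  have hMm₁ : AEStronglyMeasurable M₁ mu :=
    (hF₁.aestronglyMeasurable (μ := mu.prod mu)).integral_prod_right'
  have hMm₂ : AEStronglyMeasurable M₂ mu :=
    (hF₂.aestronglyMeasurable (μ := mu.prod mu)).integral_prod_right'
  have hB : Integrable (fun u => M₁ u * M₁ u + M₂ u * M₂ u) mu ∧
      ∫ u, (M₁ u * M₁ u + M₂ u * M₂ u) ∂mu = EE := by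
    have h3 := lem gw hw F₁ F₂ C (C * ∫ τ, hw τ ∂mu) M₁ M₂ gw_nonneg (mul_nonneg hC.le hHh)
      int_gw int_hw hF₁ hF₂ hb₁ hb₂ hMm₁
      (fun u hu => int_M_bd gw hw F₁ C int_hw hb₁ u hu) hMm₂
      (fun u hu => int_M_bd gw hw F₂ C int_hw hb₂ u hu)
    refine ⟨h3.1, ?_⟩
    rw [show (∫ u, (M₁ u * M₁ u + M₂ u * M₂ u) ∂mu) = _ from h3.2]
    unfold EE
    apply integral_congr_ae
    filter_upwards with τ
    rw [← (hA (Real.cosh τ) (Real.one_le_cosh τ)).2]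
    apply integral_congr_ae
    filter_upwards with u
    simp only [hF₁d, hF₂d]
    ring
  -- the nonnegative integral
  have hnn : 0 ≤ ∫ u, ((∑ i ∈ s, Pf u (y i) - β * M₁ u) ^ 2 +
      (∑ i ∈ s, Qf u (y i) - β * M₂ u) ^ 2) ∂mu := by
    apply integral_nonneg
    intro u
    positivity
  have hex : ∀ u, (∑ i ∈ s, Pf u (y i) - β * M₁ u) ^ 2 + (∑ i ∈ s, Qf u (y i) - β * M₂ u) ^ 2 =
      (∑ i ∈ s, ∑ j ∈ s, (Pf u (y i) * Pf u (y j) + Qf u (y i) * Qf u (y j)) -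
        2 * β * ∑ i ∈ s, (Pf u (y i) * M₁ u + Qf u (y i) * M₂ u)) +
        β ^ 2 * (M₁ u * M₁ u + M₂ u * M₂ u) := by
    intro u
    have e1 : ∑ i ∈ s, ∑ j ∈ s, (Pf u (y i) * Pf u (y j) + Qf u (y i) * Qf u (y j)) =
        (∑ i ∈ s, Pf u (y i)) ^ 2 + (∑ i ∈ s, Qf u (y i)) ^ 2 := by
      rw [sq, sq, Finset.sum_mul_sum, Finset.sum_mul_sum, ← Finset.sum_add_distrib]
      refine Finset.sum_congr rfl fun i _ => ?_
      rw [← Finset.sum_add_distrib]
    have e2 : ∑ i ∈ s, (Pf u (y i) * M₁ u + Qf u (y i) * M₂ u) =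
        (∑ i ∈ s, Pf u (y i)) * M₁ u + (∑ i ∈ s, Qf u (y i)) * M₂ u := by
      rw [Finset.sum_mul, Finset.sum_mul, ← Finset.sum_add_distrib]
    rw [e1, e2]
    ring
  have hi1 : ∀ i ∈ s, Integrable (fun u => ∑ j ∈ s,
      (Pf u (y i) * Pf u (y j) + Qf u (y i) * Qf u (y j))) mu := by
    intro i hi
    exact integrable_finsetSum _ (fun j hj => (hlap (y i) (y j) (hy i hi) (hy j hj)).1)
  have hI1 : Integrable (fun u => ∑ i ∈ s, ∑ j ∈ s,
      (Pf u (y i) * Pf u (y j) + Qf u (y i) * Qf u (y j))) mu :=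
    integrable_finsetSum _ hi1
  have hI2 : Integrable (fun u => ∑ i ∈ s, (Pf u (y i) * M₁ u + Qf u (y i) * M₂ u)) mu :=
    integrable_finsetSum _ (fun i hi => (hA (y i) (hy i hi)).1)
  have hI12 : Integrable (fun u => ∑ i ∈ s, ∑ j ∈ s,
      (Pf u (y i) * Pf u (y j) + Qf u (y i) * Qf u (y j)) -
        2 * β * ∑ i ∈ s, (Pf u (y i) * M₁ u + Qf u (y i) * M₂ u)) mu :=
    hI1.sub (hI2.const_mul _)
  simp only [hex] at hnn
  have hfin : ∫ u, ((∑ i ∈ s, ∑ j ∈ s, (Pf u (y i) * Pf u (y j) + Qf u (y i) * Qf u (y j)) -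
        2 * β * ∑ i ∈ s, (Pf u (y i) * M₁ u + Qf u (y i) * M₂ u)) +
        β ^ 2 * (M₁ u * M₁ u + M₂ u * M₂ u)) ∂mu =
      ∑ i ∈ s, ∑ j ∈ s, kk (y i) (y j) - 2 * β * ∑ i ∈ s, HH (y i) + β ^ 2 * EE := by
    rw [integral_add hI12 (hB.1.const_mul _),
      integral_sub hI1 (hI2.const_mul _), integral_const_mul, integral_const_mul, hB.2,
      integral_finsetSum _ hi1, integral_finsetSum _ (fun i hi => (hA (y i) (hy i hi)).1)]
    congr 1
    congr 1
    · refine Finset.sum_congr rfl fun i hi => ?_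
      rw [integral_finsetSum _ (fun j hj => (hlap (y i) (y j) (hy i hi) (hy j hj)).1)]
      refine Finset.sum_congr rfl fun j hj => ?_
      exact (hlap (y i) (y j) (hy i hi) (hy j hj)).2
    · congr 1
      refine Finset.sum_congr rfl fun i hi => ?_
      exact (hA (y i) (hy i hi)).2
  rw [hfin] at hnn
  exact hnn

end Pool.Agent.W701.ET
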